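import Pool.Agent.H60.TW.QE

/-!
# The standard models, completeness

`Md Λ` (`Λ` infinite): functions `ℕ → Λ`, `E_n f g` iff `f i = g i` for all `i ≤ n`.
`tw_isComplete`: the theory `Tw` is complete.
-/

set_option autoImplicit false

universe u v w

open FirstOrder FirstOrder.Language Cardinal

namespace Pool.Agent.H60.TW

/-- agreement of two sequences up to `n` -/
def agr {Λ : Type u} (n : ℕ) (f g : ℕ → Λ) : Prop := ∀ i ≤ n, f i = g i

theorem isTw_agr (Λ : Type u) [Infinite Λ] : IsTw (agr (Λ := Λ)) where
  refl n f i _ := rfl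
  symm n f g h i hi := (h i hi).symm
  trans n f g k h h' i hi := (h i hi).trans (h' i hi)
  sub n f g h i hi := h i (hi.trans (Nat.le_succ n))
  inf0 s := by
    classical
    obtain ⟨x, hx⟩ := Infinite.exists_notMem_finset (s.image fun f => f 0)
    refine ⟨fun _ => x, fun b hb h => hx ?_⟩
    rw [Finset.mem_image]
    exact ⟨b, hb, h 0 le_rfl⟩
  inf n f s := by
    classical
    obtain ⟨x, hx⟩ := Infinite.exists_notMem_finset (s.image fun f => f (n + 1))
    refine ⟨Function.update f (n + 1) x, fun i hi => ?_, fun b hb h => hx ?_⟩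
    · rw [Function.update_of_ne (by omega)]
    · rw [Finset.mem_image]
      refine ⟨b, hb, ?_⟩
      rw [h (n + 1) le_rfl, Function.update_self]

/-- for full agreement all formulas have the same truth value -/
theorem qe_all {β : Type w} {M : Type u} {N : Type v} [LE.Structure M] [LE.Structure N]
    (hM : IsTw (fun n (x y : M) => Er n x y)) (hN : IsTw (fun n (x y : N) => Er n x y))
    (f : β → M) (g : β → N) (h : ∀ K, Agree K f g) (φ : LE.Formula β) :
    φ.Realize f ↔ φ.Realize g := by
  classical
  set ψ : LE.BoundedFormula φ.freeVarFinset 0 := BoundedFormula.restrictFreeVar φ id with hψ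
  obtain ⟨K, hK⟩ := qe.{u, v} ψ
  have h1 := hK M N hM hN (fun a => f a) default (fun a => g a) default ?_
  · have e1 := BoundedFormula.realize_restrictFreeVar (φ := φ) (f := id)
      (v := fun a : φ.freeVarFinset => f a) (xs := default) f (fun _ => rfl)
    have e2 := BoundedFormula.realize_restrictFreeVar (φ := φ) (f := id)
      (v := fun a : φ.freeVarFinset => g a) (xs := default) g (fun _ => rfl)
    exact e1.symm.trans (h1.trans e2)
  · have h2 := (h K).comp (Sum.elim (fun a : φ.freeVarFinset => (a : β)) (fun k : Fin 0 => k.elim0))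
    have e1 : f ∘ (Sum.elim (fun a : φ.freeVarFinset => (a : β)) (fun k : Fin 0 => k.elim0)) =
        Sum.elim (fun a : φ.freeVarFinset => f a) default := by
      funext x
      rcases x with x | k
      · rfl
      · exact k.elim0
    have e2 : g ∘ (Sum.elim (fun a : φ.freeVarFinset => (a : β)) (fun k : Fin 0 => k.elim0)) =
        Sum.elim (fun a : φ.freeVarFinset => g a) default := by
      funext x
      rcases x with x | k
      · rfl
      · exact k.elim0
    rwa [e1, e2] at h2

/-- all models satisfy the same sentences -/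
theorem sentence_iff {M : Type u} {N : Type v} [LE.Structure M] [LE.Structure N]
    (hM : IsTw (fun n (x y : M) => Er n x y)) (hN : IsTw (fun n (x y : N) => Er n x y))
    (φ : LE.Sentence) : M ⊨ φ ↔ N ⊨ φ := by
  have h := qe_all hM hN (default : Empty → M) (default : Empty → N)
    (fun K => ⟨fun i => i.elim, fun n _ i => i.elim⟩) φ
  exact h

theorem isTw_nonempty {M : Type u} {R : ℕ → M → M → Prop} (h : IsTw R) : Nonempty M :=
  ⟨(h.inf0 ∅).choose⟩

/-- the theory of refining equivalence relations is complete -/
theorem tw_isComplete : Tw.IsComplete := by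
  let s0 : LE.Structure (ℕ → ℕ) := strOf agr
  have h0 : IsTw (fun n (x y : ℕ → ℕ) => Er n x y) := isTw_agr ℕ
  have m0 : (ℕ → ℕ) ⊨ Tw := (model_iff _).2 h0
  refine ⟨Theory.Model.isSatisfiable (ℕ → ℕ), fun φ => ?_⟩
  by_cases hφ : (ℕ → ℕ) ⊨ φ
  · left
    rw [Theory.models_sentence_iff]
    intro N
    exact (sentence_iff h0 ((model_iff N).1 N.is_model) φ).1 hφ
  · right
    rw [Theory.models_sentence_iff]
    intro N
    rw [Sentence.realize_not]
    exact fun h => hφ ((sentence_iff h0 ((model_iff N).1 N.is_model) φ).2 h)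

end Pool.Agent.H60.TW
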