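import Mathlib

/-!
# The theory of refining equivalence relations

Language with binary relation symbols `E_n`, `n : ℕ`. The theory `Tw`: every `E_n` is an
equivalence relation, `E_(n+1)` refines `E_n`, there are infinitely many `E_0`-classes and every
`E_n`-class contains infinitely many `E_(n+1)`-classes.
-/

set_option autoImplicit false

universe u v w

open FirstOrder FirstOrder.Language Cardinal

namespace Pool.Agent.H60.TW

/-- the relation symbols -/
inductive Rel : ℕ → Type
  | E (n : ℕ) : Rel 2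

/-- the language with the binary relation symbols `E_n` -/
def LE : FirstOrder.Language.{0, 0} := ⟨fun _ => Empty, Rel⟩

/-- the symbol `E_n` -/
def sE (n : ℕ) : LE.Relations 2 := Rel.E n

/-- the relation `E_n` of a structure -/
def Er {M : Type u} [LE.Structure M] (n : ℕ) (x y : M) : Prop :=
  Structure.RelMap (sE n) ![x, y]

/-- the structure given by a sequence of relations -/
@[reducible] def strOf {M : Type u} (R : ℕ → M → M → Prop) : LE.Structure M where
  funMap := fun f => f.elim
  RelMap := fun {k} r => match k, r with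
    | _, Rel.E n => fun xs => R n (xs 0) (xs 1)

/-- refining equivalence relations with infinite splitting -/
structure IsTw {M : Type u} (R : ℕ → M → M → Prop) : Prop where
  refl : ∀ n x, R n x x
  symm : ∀ n x y, R n x y → R n y x
  trans : ∀ n x y z, R n x y → R n y z → R n x z
  sub : ∀ n x y, R (n + 1) x y → R n x y
  inf0 : ∀ s : Finset M, ∃ a, ∀ b ∈ s, ¬ R 0 b a
  inf : ∀ n x, ∀ s : Finset M, ∃ a, R n x a ∧ ∀ b ∈ s, ¬ R (n + 1) b a

/-- not finitely many `E_0`-classes -/
noncomputable def axInf0 (m : ℕ) : LE.Sentence :=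
  BoundedFormula.alls (n := m)
    (BoundedFormula.ex (BoundedFormula.iInf fun k : Fin m =>
      ∼((sE 0).boundedFormula₂ (&(k.castSucc)) (&(Fin.last m)))))

/-- the `E_n`-class of `x_0` is not covered by finitely many `E_(n+1)`-classes -/
noncomputable def axInf (n m : ℕ) : LE.Sentence :=
  BoundedFormula.alls (n := m + 1)
    (BoundedFormula.ex
      ((sE n).boundedFormula₂ (&(0 : Fin (m + 2))) (&(Fin.last (m + 1))) ⊓
        BoundedFormula.iInf fun k : Fin m =>
          ∼((sE (n + 1)).boundedFormula₂ (&(k.succ.castSucc)) (&(Fin.last (m + 1))))))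

/-- `E_(n+1) ⊆ E_n` -/
noncomputable def axSub (n : ℕ) : LE.Sentence :=
  BoundedFormula.alls (n := 2)
    ((sE (n + 1)).boundedFormula₂ (&0) (&1) ⟹ (sE n).boundedFormula₂ (&0) (&1))

/-- the theory of refining equivalence relations -/
def Tw : LE.Theory :=
  Set.range (fun n => (sE n).reflexive) ∪ Set.range (fun n => (sE n).symmetric) ∪
    Set.range (fun n => (sE n).transitive) ∪ Set.range axSub ∪ Set.range axInf0 ∪
    Set.range (fun p : ℕ × ℕ => axInf p.1 p.2)

theorem realize_axInf0 (M : Type u) [LE.Structure M] (m : ℕ) :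
    M ⊨ axInf0 m ↔ ∀ g : Fin m → M, ∃ a : M, ∀ k, ¬ Er 0 (g k) a := by
  rw [Sentence.Realize, axInf0, BoundedFormula.realize_alls]
  refine forall_congr' fun g => ?_
  rw [BoundedFormula.realize_ex]
  refine exists_congr fun a => ?_
  rw [BoundedFormula.realize_iInf]
  refine forall_congr' fun k => ?_
  rw [BoundedFormula.realize_not, BoundedFormula.realize_rel₂]
  simp [Er]

theorem realize_axInf (M : Type u) [LE.Structure M] (n m : ℕ) :
    M ⊨ axInf n m ↔ ∀ g : Fin (m + 1) → M, ∃ a : M, Er n (g 0) a ∧ ∀ k : Fin m,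
      ¬ Er (n + 1) (g k.succ) a := by
  rw [Sentence.Realize, axInf, BoundedFormula.realize_alls]
  refine forall_congr' fun g => ?_
  rw [BoundedFormula.realize_ex]
  refine exists_congr fun a => ?_
  rw [BoundedFormula.realize_inf, BoundedFormula.realize_iInf, BoundedFormula.realize_rel₂]
  refine and_congr ?_ (forall_congr' fun k => ?_)
  · have h : (0 : Fin (m + 2)) = Fin.castSucc 0 := rfl
    rw [h]
    simp [Er]
  · rw [BoundedFormula.realize_not, BoundedFormula.realize_rel₂]
    simp only [Er, Term.realize_var, Function.comp_apply, Sum.elim_inr, Fin.snoc_last]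
    rw [Fin.snoc_castSucc]

theorem realize_axSub (M : Type u) [LE.Structure M] (n : ℕ) :
    M ⊨ axSub n ↔ ∀ x y : M, Er (n + 1) x y → Er n x y := by
  rw [Sentence.Realize, axSub, BoundedFormula.realize_alls]
  simp only [BoundedFormula.realize_imp, BoundedFormula.realize_rel₂, Er]
  constructor
  · intro h x y
    simpa using h ![x, y]
  · intro h g
    simpa using h (g 0) (g 1)

theorem model_iff (M : Type u) [LE.Structure M] :
    M ⊨ Tw ↔ IsTw (fun n (x y : M) => Er n x y) := by
  rw [Theory.model_iff]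
  have e1 : (∀ φ ∈ Tw, M ⊨ φ) ↔ (∀ n, M ⊨ (sE n).reflexive) ∧ (∀ n, M ⊨ (sE n).symmetric) ∧
      (∀ n, M ⊨ (sE n).transitive) ∧ (∀ n, M ⊨ axSub n) ∧ (∀ n, M ⊨ axInf0 n) ∧
      ∀ n m, M ⊨ axInf n m := by
    simp only [Tw, Set.mem_union, Set.mem_range, Prod.exists]
    constructor
    · intro h
      refine ⟨fun n => h _ ?_, fun n => h _ ?_, fun n => h _ ?_, fun n => h _ ?_,
        fun n => h _ ?_, fun n m => h _ ?_⟩ <;> simp
    · rintro ⟨h1, h2, h3, h4, h5, h6⟩ φ (((((⟨n, rfl⟩ | ⟨n, rfl⟩) | ⟨n, rfl⟩) | ⟨n, rfl⟩) |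
        ⟨n, rfl⟩) | ⟨n, m, rfl⟩)
      exacts [h1 n, h2 n, h3 n, h4 n, h5 n, h6 n m]
  rw [e1]
  simp only [Relations.realize_reflexive, Relations.realize_symmetric,
    Relations.realize_transitive, realize_axInf0, realize_axInf, realize_axSub]
  constructor
  · rintro ⟨h1, h2, h3, h4, h5, h6⟩
    refine ⟨fun n x => (h1 n).refl x, fun n x y h => (h2 n).symm x y h,
      fun n x y z hx hy => (h3 n).trans x y z hx hy, fun n x y => h4 n x y, fun s => ?_,
      fun n x s => ?_⟩
    · obtain ⟨a, ha⟩ := h5 s.card (fun k => (s.equivFin.symm k : M))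
      refine ⟨a, fun b hb => ?_⟩
      simpa using ha (s.equivFin ⟨b, hb⟩)
    · obtain ⟨a, hxa, ha⟩ := h6 n s.card (Fin.cons x (fun k => (s.equivFin.symm k : M)))
      refine ⟨a, by simpa using hxa, fun b hb => ?_⟩
      simpa using ha (s.equivFin ⟨b, hb⟩)
  · intro h
    classical
    refine ⟨fun n => ⟨h.refl n⟩, fun n => ⟨h.symm n⟩, fun n => ⟨h.trans n⟩, h.sub, fun m g => ?_,
      fun n m g => ?_⟩
    · obtain ⟨a, ha⟩ := h.inf0 (Finset.univ.image g)
      exact ⟨a, fun k => ha _ (Finset.mem_image_of_mem _ (Finset.mem_univ k))⟩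
    · obtain ⟨a, hxa, ha⟩ := h.inf n (g 0) (Finset.univ.image fun k : Fin m => g k.succ)
      exact ⟨a, hxa, fun k => ha _ (Finset.mem_image_of_mem _ (Finset.mem_univ k))⟩

theorem er_strOf {M : Type u} (R : ℕ → M → M → Prop) (n : ℕ) (x y : M) :
    @Er M (strOf R) n x y ↔ R n x y := Iff.rfl

/-- a structure given by relations is a model iff the relations have the properties `IsTw` -/
theorem model_strOf_iff {M : Type u} (R : ℕ → M → M → Prop) :
    @Theory.Model LE M (strOf R) Tw ↔ IsTw R := by
  letI := strOf R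
  exact model_iff M

end Pool.Agent.H60.TW
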