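import Pool.Agent.H60.TW.Defs

/-!
# Back and forth

Two tuples `f`, `g` (in two models) agree up to `K` if they have the same equalities and the same
relations `E_n`, `n < K`. `Agree.ext`: for finite tuples agreement can be extended by one element.
`qe`: for every formula there is a `K` such that agreement up to `K` implies that the formula has
the same truth value.
-/

set_option autoImplicit false

universe u v w

open FirstOrder FirstOrder.Language Cardinal

namespace Pool.Agent.H60.TW

/-- agreement up to `K` -/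
def Agree {M : Type u} {N : Type v} [LE.Structure M] [LE.Structure N] {ι : Type w} (K : ℕ)
    (f : ι → M) (g : ι → N) : Prop :=
  (∀ i j, f i = f j ↔ g i = g j) ∧ ∀ n < K, ∀ i j, Er n (f i) (f j) ↔ Er n (g i) (g j)

section
variable {M : Type u} {N : Type v} [LE.Structure M] [LE.Structure N] {ι : Type w}

theorem Agree.symm {K : ℕ} {f : ι → M} {g : ι → N} (h : Agree K f g) : Agree K g f :=
  ⟨fun i j => (h.1 i j).symm, fun n hn i j => (h.2 n hn i j).symm⟩

theorem Agree.mono {K K' : ℕ} {f : ι → M} {g : ι → N} (h : Agree K f g) (hK : K' ≤ K) :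
    Agree K' f g :=
  ⟨h.1, fun n hn i j => h.2 n (hn.trans_le hK) i j⟩

theorem Agree.comp {ι' : Type*} {K : ℕ} {f : ι → M} {g : ι → N} (h : Agree K f g) (e : ι' → ι) :
    Agree K (f ∘ e) (g ∘ e) :=
  ⟨fun i j => h.1 (e i) (e j), fun n hn i j => h.2 n hn (e i) (e j)⟩

theorem IsTw.mono {R : ℕ → M → M → Prop} (h : IsTw R) {m n : ℕ} (hmn : m ≤ n) {x y : M}
    (hxy : R n x y) : R m x y := by
  induction n, hmn using Nat.le_induction with
  | base => exact hxy
  | succ n _ ih => exact ih (h.sub n x y hxy)

theorem Agree.ext [Finite ι] (hM : IsTw (fun n (x y : M) => Er n x y))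
    (hN : IsTw (fun n (x y : N) => Er n x y)) {K : ℕ} {f : ι → M} {g : ι → N} (h : Agree K f g)
    (a : M) : ∃ b : N, (∀ i, f i = a ↔ g i = b) ∧ ∀ n < K, ∀ i, Er n (f i) a ↔ Er n (g i) b := by
  classical
  by_cases hex : ∃ i, f i = a
  · obtain ⟨i0, hi0⟩ := hex
    exact ⟨g i0, fun i => by rw [← hi0]; exact h.1 i i0, fun n hn i => by
      rw [← hi0]; exact h.2 n hn i i0⟩
  · push_neg at hex
    haveI := Fintype.ofFinite ι
    set P : ℕ → Prop := fun l => l = 0 ∨ ∃ i, Er (l - 1) (f i) a with hP
    set l := Nat.findGreatest P K with hl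
    have hPl : P l := Nat.findGreatest_spec (P := P) (Nat.zero_le K) (Or.inl rfl)
    have hfar : ∀ n < K, l ≤ n → ∀ i, ¬ Er n (f i) a := by
      intro n hn hln i hE
      have : ¬ P (n + 1) :=
        Nat.findGreatest_is_greatest (P := P) (Nat.lt_succ_of_le hln) (Nat.succ_le_of_lt hn)
      exact this (Or.inr ⟨i, hE⟩)
    have hb : ∃ b : N, (∀ i, ¬ Er l (g i) b) ∧
        (l = 0 ∨ ∃ i0, Er (l - 1) (f i0) a ∧ Er (l - 1) (g i0) b) := by
      rcases hPl with h0 | ⟨i0, hi0⟩
      · obtain ⟨b, hb⟩ := hN.inf0 (Finset.univ.image g)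
        refine ⟨b, fun i => ?_, Or.inl h0⟩
        rw [h0]
        exact hb _ (Finset.mem_image_of_mem _ (Finset.mem_univ i))
      · by_cases h0 : l = 0
        · obtain ⟨b, hb⟩ := hN.inf0 (Finset.univ.image g)
          refine ⟨b, fun i => ?_, Or.inl h0⟩
          rw [h0]
          exact hb _ (Finset.mem_image_of_mem _ (Finset.mem_univ i))
        · obtain ⟨b, hb1, hb2⟩ := hN.inf (l - 1) (g i0) (Finset.univ.image g)
          have hl1 : l - 1 + 1 = l := by omega
          rw [hl1] at hb2
          exact ⟨b, fun i => hb2 _ (Finset.mem_image_of_mem _ (Finset.mem_univ i)),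
            Or.inr ⟨i0, hi0, hb1⟩⟩
    obtain ⟨b, hb1, hb2⟩ := hb
    refine ⟨b, fun i => ?_, fun n hn i => ?_⟩
    · constructor
      · intro hi
        exact absurd hi (hex i)
      · intro hi
        exfalso
        apply hb1 i
        rw [hi]
        exact hN.refl l b
    · by_cases hnl : l ≤ n
      · constructor
        · intro hE
          exact absurd hE (hfar n hn hnl i)
        · intro hE
          exact absurd (hN.mono hnl hE) (hb1 i)
      · rcases hb2 with h0 | ⟨i0, h1, h2⟩
        · omega
        · have hn1 : n ≤ l - 1 := by omega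
          have h1' : Er n (f i0) a := hM.mono hn1 h1
          have h2' : Er n (g i0) b := hN.mono hn1 h2
          constructor
          · intro hE
            have h3 : Er n (f i) (f i0) := hM.trans n _ _ _ hE (hM.symm n _ _ h1')
            exact hN.trans n _ _ _ ((h.2 n hn i i0).1 h3) h2'
          · intro hE
            have h3 : Er n (g i) (g i0) := hN.trans n _ _ _ hE (hN.symm n _ _ h2')
            exact hM.trans n _ _ _ ((h.2 n hn i i0).2 h3) h1'

/-- adding one element to both tuples -/
theorem Agree.option (hM : IsTw (fun n (x y : M) => Er n x y))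
    (hN : IsTw (fun n (x y : N) => Er n x y)) {K : ℕ} {f : ι → M} {g : ι → N} (h : Agree K f g)
    {a : M} {b : N} (h1 : ∀ i, f i = a ↔ g i = b)
    (h2 : ∀ n < K, ∀ i, Er n (f i) a ↔ Er n (g i) b) :
    Agree K (fun o : Option ι => o.elim a f) (fun o : Option ι => o.elim b g) := by
  constructor
  · rintro (_ | i) (_ | j)
    · simp
    · simp only [Option.elim]
      rw [eq_comm, h1 j, eq_comm]
    · exact h1 i
    · exact h.1 i j
  · rintro n hn (_ | i) (_ | j)
    · exact ⟨fun _ => hN.refl n b, fun _ => hM.refl n a⟩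
    · constructor
      · intro hE
        exact hN.symm n _ _ ((h2 n hn j).1 (hM.symm n _ _ hE))
      · intro hE
        exact hM.symm n _ _ ((h2 n hn j).2 (hN.symm n _ _ hE))
    · exact h2 n hn i
    · exact h.2 n hn i j

end

private theorem term_var {α : Type w} (t : LE.Term α) : ∃ x, t = Term.var x := by
  cases t with
  | var x => exact ⟨x, rfl⟩
  | func f _ => exact f.elim

private theorem rel_cases {k : ℕ} (R : LE.Relations k) : ∃ (h : k = 2) (n : ℕ), h ▸ R = sE n := by
  cases R with
  | E n => exact ⟨rfl, n, rfl⟩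

/-- the index of the new tuple -/
private def idx {α : Type w} {n : ℕ} : α ⊕ Fin (n + 1) → Option (α ⊕ Fin n)
  | Sum.inl x => some (Sum.inl x)
  | Sum.inr k => Fin.lastCases none (fun j => some (Sum.inr j)) k

private theorem elim_idx {M : Type u} {α : Type w} {n : ℕ} (v : α → M) (xs : Fin n → M) (a : M) :
    Sum.elim v (Fin.snoc xs a : Fin (n + 1) → M) =
      (fun o : Option (α ⊕ Fin n) => o.elim a (Sum.elim v xs)) ∘ idx := by
  funext x
  rcases x with x | k
  · rfl
  · induction k using Fin.lastCases with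
    | last => simp [idx]
    | cast j => simp [idx]

theorem qe {α : Type w} [Finite α] {m : ℕ} (φ : LE.BoundedFormula α m) :
    ∃ K : ℕ, ∀ (M : Type u) (N : Type v) [LE.Structure M] [LE.Structure N],
      IsTw (fun n (x y : M) => Er n x y) → IsTw (fun n (x y : N) => Er n x y) →
      ∀ (v : α → M) (xs : Fin m → M) (w : α → N) (ys : Fin m → N),
      Agree K (Sum.elim v xs) (Sum.elim w ys) → (φ.Realize v xs ↔ φ.Realize w ys) := by
  induction φ with
  | falsum => exact ⟨0, fun M N _ _ _ _ v xs w ys _ => Iff.rfl⟩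
  | equal t₁ t₂ =>
    obtain ⟨x, rfl⟩ := term_var t₁
    obtain ⟨y, rfl⟩ := term_var t₂
    refine ⟨0, fun M N _ _ _ _ v xs w ys h => ?_⟩
    simp only [BoundedFormula.Realize, Term.realize_var]
    exact h.1 x y
  | rel R ts =>
    cases R with
    | E n =>
      obtain ⟨x, hx⟩ := term_var (ts 0)
      obtain ⟨y, hy⟩ := term_var (ts 1)
      refine ⟨n + 1, fun M N _ _ _ _ v xs w ys h => ?_⟩
      have h1 := h.2 n (Nat.lt_succ_self n) x y
      have e1 : (fun i => (ts i).realize (Sum.elim v xs)) = ![Sum.elim v xs x, Sum.elim v xs y] := by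
        funext i
        fin_cases i
        · simp [hx]
        · simp [hy]
      have e2 : (fun i => (ts i).realize (Sum.elim w ys)) = ![Sum.elim w ys x, Sum.elim w ys y] := by
        funext i
        fin_cases i
        · simp [hx]
        · simp [hy]
      simp only [BoundedFormula.Realize]
      rw [e1, e2]
      exact h1
  | imp φ ψ ih1 ih2 =>
    obtain ⟨K1, h1⟩ := ih1
    obtain ⟨K2, h2⟩ := ih2
    refine ⟨max K1 K2, fun M N _ _ hM hN v xs w ys h => ?_⟩
    rw [BoundedFormula.realize_imp, BoundedFormula.realize_imp,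
      h1 M N hM hN v xs w ys (h.mono (le_max_left _ _)),
      h2 M N hM hN v xs w ys (h.mono (le_max_right _ _))]
  | all φ ih =>
    obtain ⟨K, hK⟩ := ih
    refine ⟨K, fun M N _ _ hM hN v xs w ys h => ?_⟩
    rw [BoundedFormula.realize_all, BoundedFormula.realize_all]
    constructor
    · intro hall b
      obtain ⟨a, ha1, ha2⟩ := h.symm.ext hN hM b
      have h3 := (h.option hM hN (fun i => (ha1 i).symm) (fun n hn i => (ha2 n hn i).symm)).comp idx
      rw [← elim_idx, ← elim_idx] at h3
      exact (hK M N hM hN v _ w _ h3).1 (hall a)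
    · intro hall a
      obtain ⟨b, hb1, hb2⟩ := h.ext hM hN a
      have h3 := (h.option hM hN hb1 hb2).comp idx
      rw [← elim_idx, ← elim_idx] at h3
      exact (hK M N hM hN v _ w _ h3).2 (hall b)

end Pool.Agent.H60.TW
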