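import Pool.Agent.H60.TW.Unsup

/-!
# Stable

A complete type over `A` is determined by the `E_n`-classes (and equalities) of its variables with
elements of `A`, and by the relations between its variables (`qe_all`). So there are at most
`lam ^ ℵ₀` complete types over a set of `lam` parameters.
-/

set_option autoImplicit false

universe u v w

open FirstOrder FirstOrder.Language Cardinal

namespace Pool.Agent.H60.TW

/-- equality (`none`) and `E_n` (`some n`) -/
def Rk {M : Type u} [LE.Structure M] : Option ℕ → M → M → Prop
  | none, x, y => x = y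
  | some n, x, y => Er n x y

theorem Rk.symm' {M : Type u} [LE.Structure M] (h : IsTw (fun n (x y : M) => Er n x y))
    {k : Option ℕ} {x y : M} (hxy : Rk k x y) : Rk k y x := by
  cases k with
  | none => exact Eq.symm hxy
  | some n => exact h.symm n x y hxy

theorem Rk.trans' {M : Type u} [LE.Structure M] (h : IsTw (fun n (x y : M) => Er n x y))
    {k : Option ℕ} {x y z : M} (hxy : Rk k x y) (hyz : Rk k y z) : Rk k x z := by
  cases k with
  | none => exact Eq.trans hxy hyz
  | some n => exact h.trans n x y z hxy hyz

theorem agree_of_rk {M : Type u} {N : Type v} [LE.Structure M] [LE.Structure N] {β : Type w}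
    {f : β → M} {g : β → N} (h : ∀ k i j, Rk k (f i) (f j) ↔ Rk k (g i) (g j)) (K : ℕ) :
    Agree K f g :=
  ⟨fun i j => h none i j, fun n _ i j => h (some n) i j⟩

section
variable {M : Type w} [LE.Structure M] [Nonempty M] (A : Set M) {α : Type}

/-- the formula `R_k(x_i, a)` -/
def atomA (k : Option ℕ) (i : α) (a : A) : LE[[A]].Formula α :=
  match k with
  | none => (Term.var i : LE[[A]].Term α).equal (LE.con a).term
  | some n => ((LE.lhomWithConstants A).onRelation (sE n)).formula₂ (Term.var i) (LE.con a).term

/-- the formula `R_k(x_i, x_j)` -/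
def atomV (k : Option ℕ) (i j : α) : LE[[A]].Formula α :=
  match k with
  | none => (Term.var i : LE[[A]].Term α).equal (Term.var j)
  | some n => ((LE.lhomWithConstants A).onRelation (sE n)).formula₂ (Term.var i) (Term.var j)

variable {A}

/-- the code of a type -/
noncomputable def codeA (p : (LE[[A]].completeTheory M).CompleteType α) (i : α) (k : Option ℕ) :
    Option A :=
  open Classical in
  if h : ∃ a, Formula.equivSentence (atomA A k i a) ∈ p then some h.choose else none

/-- the code of a type -/
def codeV (p : (LE[[A]].completeTheory M).CompleteType α) (i j : α) (k : Option ℕ) : Prop :=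
  Formula.equivSentence (atomV A k i j) ∈ p

/-- a realization of a type: a model with an interpretation of the parameters which satisfies the
same formulas as in `M`, and a tuple -/
theorem exists_real (hM : IsTw (fun n (x y : M) => Er n x y))
    (p : (LE[[A]].completeTheory M).CompleteType α) :
    ∃ (N : Type w) (_ : LE.Structure N) (c : A → N) (v : α → N),
      IsTw (fun n (x y : N) => Er n x y) ∧
      (∀ k (a b : A), Rk k (c a) (c b) ↔ Rk k (a : M) (b : M)) ∧
      (∀ k i a, Formula.equivSentence (atomA A k i a) ∈ p ↔ Rk k (v i) (c a)) ∧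
      (∀ k i j, Formula.equivSentence (atomV A k i j) ∈ p ↔ Rk k (v i) (v j)) ∧
      ∀ φ : LE[[A]].Formula α, Formula.equivSentence φ ∈ p ↔
        Formula.Realize (BoundedFormula.constantsVarsEquiv φ : LE.Formula (A ⊕ α))
          (Sum.elim c v) := by
  obtain ⟨N, v, hv⟩ := Theory.exists_modelType_is_realized_in _ p
  let sN : LE.Structure N := (LE.lhomWithConstants A).reduct N
  have hexp : (LE.lhomWithConstants A).IsExpansionOn N := LHom.isExpansionOn_reduct _ _
  have hsent : ∀ σ : LE[[A]].Sentence, (N : Type w) ⊨ σ ↔ M ⊨ σ := by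
    intro σ
    have hN : (N : Type w) ⊨ LE[[A]].completeTheory M := N.is_model
    rw [Theory.model_iff] at hN
    constructor
    · intro h
      by_contra hc
      have h1 : Formula.not σ ∈ LE[[A]].completeTheory M := by
        rw [mem_completeTheory, Sentence.realize_not]
        exact hc
      have h2 := hN _ h1
      rw [Sentence.realize_not] at h2
      exact h2 h
    · intro h
      exact hN σ (by rw [mem_completeTheory]; exact h)
  have htw : (N : Type w) ⊨ Tw := by
    have h1 : M ⊨ (LE.lhomWithConstants A).onTheory Tw :=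
      (LHom.onTheory_model _ _).2 ((model_iff M).2 hM)
    have h2 : (N : Type w) ⊨ (LE.lhomWithConstants A).onTheory Tw := by
      rw [Theory.model_iff] at h1 ⊢
      exact fun σ hσ => (hsent σ).2 (h1 σ hσ)
    exact (LHom.onTheory_model _ _).1 h2
  have hcon : ∀ ψ : LE.Formula A, ψ.Realize (fun a => (LE.con a : N)) ↔
      ψ.Realize (fun a => (a : M)) := by
    intro ψ
    have h1 := Formula.realize_equivSentence N ψ
    have h2 := Formula.realize_equivSentence M ψ
    rw [← h1]
    exact (hsent _).trans h2
  refine ⟨N, sN, fun a => (LE.con a : N), v, (model_iff N).1 htw, ?_, ?_, ?_, ?_⟩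
  · intro k a b
    cases k with
    | none =>
      have h := hcon ((Term.var a).equal (Term.var b))
      rw [Formula.realize_equal, Formula.realize_equal] at h
      exact h
    | some n =>
      have h := hcon ((sE n).formula₂ (Term.var a) (Term.var b))
      rw [Formula.realize_rel₂, Formula.realize_rel₂] at h
      exact h
  · intro k i a
    rw [← hv, Theory.CompleteType.formula_mem_typeOf]
    cases k with
    | none =>
      rw [atomA, Formula.realize_equal, Term.realize_constants]
      exact Iff.rfl
    | some n =>
      rw [atomA, Formula.realize_rel₂, Term.realize_constants, LHom.map_onRelation]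
      exact Iff.rfl
  · intro k i j
    rw [← hv, Theory.CompleteType.formula_mem_typeOf]
    cases k with
    | none =>
      rw [atomV, Formula.realize_equal]
      exact Iff.rfl
    | some n =>
      rw [atomV, Formula.realize_rel₂, LHom.map_onRelation]
      exact Iff.rfl
  · intro φ
    rw [← hv, Theory.CompleteType.formula_mem_typeOf]
    exact (BoundedFormula.realize_constantsVarsEquiv (φ := φ)).symm

/-- a type is determined by its code -/
theorem code_injective (hM : IsTw (fun n (x y : M) => Er n x y)) :
    Function.Injective (fun p : (LE[[A]].completeTheory M).CompleteType α =>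
      (codeA p, codeV p)) := by
  intro p q hpq
  have hA : ∀ i k, codeA p i k = codeA q i k := fun i k =>
    congrFun (congrFun (congrArg Prod.fst hpq) i) k
  have hV : ∀ i j k, codeV p i j k = codeV q i j k := fun i j k =>
    congrFun (congrFun (congrFun (congrArg Prod.snd hpq) i) j) k
  obtain ⟨N, sN, c, v, hN, hc, ha, hv, hf⟩ := exists_real hM p
  obtain ⟨N', sN', c', v', hN', hc', ha', hv', hf'⟩ := exists_real hM q
  have key : ∀ k i a, Rk k (v i) (c a) ↔ Rk k (v' i) (c' a) := by
    intro k i a
    have h1 := hA i k
    unfold codeA at h1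
    by_cases hp : ∃ a, Formula.equivSentence (atomA A k i a) ∈ p
    · by_cases hq : ∃ a, Formula.equivSentence (atomA A k i a) ∈ q
      · rw [dif_pos hp, dif_pos hq, Option.some.injEq] at h1
        have h2 := hp.choose_spec
        have h3 := hq.choose_spec
        rw [← h1] at h3
        rw [ha] at h2
        rw [ha'] at h3
        constructor
        · intro h4
          have h5 : Rk k (c hp.choose) (c a) := Rk.trans' hN (Rk.symm' hN h2) h4
          exact Rk.trans' hN' h3 ((hc' k _ _).2 ((hc k _ _).1 h5))
        · intro h4
          have h5 : Rk k (c' hp.choose) (c' a) := Rk.trans' hN' (Rk.symm' hN' h3) h4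
          exact Rk.trans' hN h2 ((hc k _ _).2 ((hc' k _ _).1 h5))
      · rw [dif_pos hp, dif_neg hq] at h1
        exact absurd h1 (by simp)
    · by_cases hq : ∃ a, Formula.equivSentence (atomA A k i a) ∈ q
      · rw [dif_neg hp, dif_pos hq] at h1
        exact absurd h1 (by simp)
      · constructor
        · intro h4
          exact absurd ⟨a, (ha k i a).2 h4⟩ hp
        · intro h4
          exact absurd ⟨a, (ha' k i a).2 h4⟩ hq
  have keyV : ∀ k i j, Rk k (v i) (v j) ↔ Rk k (v' i) (v' j) := by
    intro k i j
    rw [← hv, ← hv']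
    exact (hV i j k).to_iff
  have hag : ∀ k (x y : A ⊕ α), Rk k (Sum.elim c v x) (Sum.elim c v y) ↔
      Rk k (Sum.elim c' v' x) (Sum.elim c' v' y) := by
    rintro k (a | i) (b | j)
    · exact (hc k a b).trans (hc' k a b).symm
    · constructor
      · intro h
        exact Rk.symm' hN' ((key k j a).1 (Rk.symm' hN h))
      · intro h
        exact Rk.symm' hN ((key k j a).2 (Rk.symm' hN' h))
    · exact key k i b
    · exact keyV k i j
  apply SetLike.ext
  intro σ
  obtain ⟨φ, rfl⟩ := Formula.equivSentence.surjective σ
  rw [hf, hf']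
  exact qe_all hN hN' _ _ (agree_of_rk hag) _

end

/-- at most `lam` complete types over `lam` parameters if `lam ^ ℵ₀ = lam` -/
theorem tw_stableIn {lam : Cardinal.{w}} (hlam : ℵ₀ ≤ lam)
    (hpow : lam ^ (ℵ₀ : Cardinal.{w}) = lam) : StableIn Tw lam := by
  intro M _ _ hM A hA n
  have hM' := (model_iff M).1 hM
  refine (mk_le_of_injective (code_injective (α := Fin n) (A := A) hM')).trans ?_
  rw [mk_prod]
  have hc : #(Fin n → Option ℕ → Option A) ≤ lam := by
    rw [mk_congr (Equiv.curry (Fin n) (Option ℕ) (Option A)).symm]
    have h1 : #(Option A) ≤ lam := by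
      rw [mk_option]
      exact Cardinal.add_le_of_le hlam hA (one_le_aleph0.trans hlam)
    have h2 : lift.{w} #(Fin n × Option ℕ) ≤ ℵ₀ := by
      rw [lift_le_aleph0]
      exact mk_le_aleph0
    calc #(Fin n × Option ℕ → Option A) = #(Option A) ^ lift.{w} #(Fin n × Option ℕ) := by
          simp
      _ ≤ lam ^ (ℵ₀ : Cardinal.{w}) :=
          (Cardinal.power_le_power_right h1).trans
            (Cardinal.power_le_power_left (ne_of_gt (aleph0_pos.trans_le hlam)) h2)
      _ = lam := hpow
  have hd : lift.{w} #(Fin n → Fin n → Option ℕ → Prop) ≤ lam := by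
    have h1 : #(Fin n → Fin n → Option ℕ → Prop) ≤ 2 ^ (ℵ₀ : Cardinal.{0}) := by
      rw [mk_congr ((Equiv.curry (Fin n) (Fin n) (Option ℕ → Prop)).symm.trans
        (Equiv.curry (Fin n × Fin n) (Option ℕ) Prop).symm)]
      have h3 : #((Fin n × Fin n) × Option ℕ → Prop) = 2 ^ #((Fin n × Fin n) × Option ℕ) := by
        simp
      rw [h3]
      exact Cardinal.power_le_power_left two_ne_zero mk_le_aleph0
    calc lift.{w} #(Fin n → Fin n → Option ℕ → Prop) ≤ lift.{w} (2 ^ (ℵ₀ : Cardinal.{0})) :=
          lift_le.2 h1
      _ = 2 ^ (ℵ₀ : Cardinal.{w}) := by simp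
      _ ≤ lam ^ (ℵ₀ : Cardinal.{w}) :=
          Cardinal.power_le_power_right ((natCast_lt_aleph0 (n := 2)).le.trans hlam)
      _ = lam := hpow
  refine (mul_le_mul' ?_ hd).trans (mul_eq_self hlam).le
  rw [lift_id']
  exact hc

/-- the language is countable -/
theorem card_LE : LE.card ≤ ℵ₀ := by
  have h : Countable (Σ l, LE.Relations l) := by
    have hsurj : Function.Surjective (fun n : ℕ => (⟨2, sE n⟩ : Σ l, LE.Relations l)) := by
      rintro ⟨l, R⟩
      cases R with
      | E n => exact ⟨n, rfl⟩
    exact hsurj.countable
  have h' : Countable LE.Symbols := by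
    have h1 : Countable (Σ l, LE.Functions l) := by
      have : IsEmpty (Σ l, LE.Functions l) := ⟨fun x => Empty.elim x.2⟩
      infer_instance
    unfold Symbols
    infer_instance
  exact mk_le_aleph0

theorem tw_stable : Stable.{w} Tw := by
  refine ⟨2 ^ (ℵ₀ : Cardinal.{w}), ?_, tw_stableIn ?_ ?_⟩
  · exact (cantor ℵ₀).le
  · exact (cantor ℵ₀).le
  · rw [← power_mul, aleph0_mul_aleph0]

/-- `Tw` is a complete theory in a countable language, stable and not superstable -/
theorem tw_main : LE.card ≤ ℵ₀ ∧ Tw.IsComplete ∧ Stable.{w} Tw ∧ ¬ Superstable.{w} Tw :=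
  ⟨card_LE, tw_isComplete, tw_stable, tw_not_superstable⟩

end Pool.Agent.H60.TW
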