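import Pool.Agent.H60.TW.Compl

/-!
# Not superstable

`StableIn T lam`: for every model `M` and every `A ⊆ M` with at most `lam` elements there are at
most `lam` complete `n`-types over `A`, for every `n`. `Superstable T`: stable in all large `lam`.
`tw_not_stableIn`: `Tw` is not stable in `lam` if `lam < lam ^ ℵ₀`.
-/

set_option autoImplicit false

universe u v w

open FirstOrder FirstOrder.Language Cardinal

namespace Pool.Agent.H60.TW

/-- stable in the cardinal `lam`: at most `lam` complete `n`-types over any set of at most `lam`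
parameters in any model, for every `n` -/
def StableIn {L : FirstOrder.Language.{0, 0}} (T : L.Theory) (lam : Cardinal.{w}) : Prop :=
  ∀ (M : Type w) [L.Structure M] [Nonempty M], M ⊨ T → ∀ A : Set M, #A ≤ lam →
    ∀ n : ℕ, #((L[[A]].completeTheory M).CompleteType (Fin n)) ≤ lam

/-- stable: stable in some infinite cardinal (of the universe `w`) -/
def Stable {L : FirstOrder.Language.{0, 0}} (T : L.Theory) : Prop :=
  ∃ lam : Cardinal.{w}, ℵ₀ ≤ lam ∧ StableIn T lam

/-- superstable: stable in all sufficiently large cardinals (of the universe `w`) -/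
def Superstable {L : FirstOrder.Language.{0, 0}} (T : L.Theory) : Prop :=
  ∃ lam0 : Cardinal.{w}, ∀ lam : Cardinal.{w}, lam0 ≤ lam → StableIn T lam

private theorem exists_list {Λ : Type w} (x0 : Λ) (f : ℕ → Λ) (n : ℕ) :
    ∃ l : List Λ, ∀ i ≤ n, l.getD i x0 = f i := by
  refine ⟨List.ofFn (fun k : Fin (n + 1) => f k), fun i hi => ?_⟩
  rw [List.getD_eq_getElem?_getD, List.getElem?_ofFn]
  simp [Nat.lt_succ_of_le hi]

theorem tw_not_stableIn {lam : Cardinal.{w}} (hlam : ℵ₀ ≤ lam) (hlt : lam < lam ^ (ℵ₀ : Cardinal.{w})) :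
    ¬ StableIn Tw lam := by
  intro hst
  obtain ⟨Λ, rfl⟩ : ∃ Λ : Type w, #Λ = lam := ⟨lam.out, mk_out lam⟩
  have : Infinite Λ := infinite_iff.2 hlam
  obtain ⟨x0⟩ : Nonempty Λ := inferInstance
  let s0 : LE.Structure (ℕ → Λ) := strOf agr
  have h0 : IsTw (fun n (x y : ℕ → Λ) => Er n x y) := isTw_agr Λ
  have m0 : (ℕ → Λ) ⊨ Tw := (model_iff _).2 h0
  set A : Set (ℕ → Λ) := Set.range (fun l : List Λ => fun i => l.getD i x0) with hA
  have hcA : #A ≤ #Λ := mk_range_le.trans (mk_list_eq_mk Λ).le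
  have hle := hst (ℕ → Λ) m0 A hcA 1
  set T' := LE[[A]].completeTheory (ℕ → Λ) with hT'
  have hinj : Function.Injective (fun f : ℕ → Λ => T'.typeOf (fun _ : Fin 1 => f)) := by
    intro f g hfg
    funext n
    by_contra hne
    obtain ⟨l, hl⟩ := exists_list x0 f n
    let a : A := ⟨fun i => l.getD i x0, ⟨l, rfl⟩⟩
    let φ : LE[[A]].Formula (Fin 1) :=
      ((LE.lhomWithConstants A).onRelation (sE n)).formula₂ (Term.var 0) (LE.con a).term
    have key : ∀ h : ℕ → Λ, φ.Realize (fun _ : Fin 1 => h) ↔ agr n h (fun i => l.getD i x0) := by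
      intro h
      rw [Formula.realize_rel₂, LHom.map_onRelation, Term.realize_con]
      exact Iff.rfl
    have h1 : Formula.equivSentence φ ∈ T'.typeOf (fun _ : Fin 1 => f) ↔
        φ.Realize (fun _ : Fin 1 => f) := Theory.CompleteType.formula_mem_typeOf
    have h2 : Formula.equivSentence φ ∈ T'.typeOf (fun _ : Fin 1 => g) ↔
        φ.Realize (fun _ : Fin 1 => g) := Theory.CompleteType.formula_mem_typeOf
    have h3 : φ.Realize (fun _ : Fin 1 => f) := (key f).2 fun i hi => (hl i hi).symm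
    have h4 : φ.Realize (fun _ : Fin 1 => g) := by
      rw [← h2]
      have h5 := h1.2 h3
      have h6 : T'.typeOf (fun _ : Fin 1 => f) = T'.typeOf (fun _ : Fin 1 => g) := hfg
      rwa [h6] at h5
    have h7 : g n = l.getD n x0 := (key g).1 h4 n le_rfl
    rw [hl n le_rfl] at h7
    exact hne h7.symm
  have hcard : #(ℕ → Λ) ≤ #(T'.CompleteType (Fin 1)) := mk_le_of_injective hinj
  have hpow : #(ℕ → Λ) = #Λ ^ (ℵ₀ : Cardinal.{w}) := by
    simp
  rw [hpow] at hcard
  exact absurd (hcard.trans hle) (not_le.2 hlt)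

/-- arbitrarily large cardinals `lam < lam ^ ℵ₀` -/
theorem exists_lt_power (lam0 : Cardinal.{w}) :
    ∃ lam : Cardinal.{w}, lam0 ≤ lam ∧ ℵ₀ ≤ lam ∧ lam < lam ^ (ℵ₀ : Cardinal.{w}) := by
  let f : ℕ → Cardinal.{w} := fun n => Nat.rec (max lam0 ℵ₀) (fun _ c => 2 ^ c) n
  have hf : ∀ n, f n < f (n + 1) := fun n => cantor (f n)
  refine ⟨Cardinal.sum f, ?_, ?_, ?_⟩
  · exact (le_max_left lam0 ℵ₀).trans (Cardinal.le_sum f 0)
  · exact (le_max_right lam0 ℵ₀).trans (Cardinal.le_sum f 0)
  · refine (Cardinal.sum_lt_prod f (fun n => f (n + 1)) hf).trans_le ?_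
    refine (Cardinal.prod_le_prod _ (fun _ => Cardinal.sum f)
      (fun n => Cardinal.le_sum f (n + 1))).trans ?_
    rw [Cardinal.prod_const]
    simp

theorem tw_not_superstable : ¬ Superstable.{w} Tw := by
  rintro ⟨lam0, h⟩
  obtain ⟨lam, h1, h2, h3⟩ := exists_lt_power lam0
  exact tw_not_stableIn h2 h3 (h lam h1)

end Pool.Agent.H60.TW
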